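import Mathlib
import Pool.Agent.Helper47.KlarnerDefs
import Pool.Agent.Helper47.KlarnerProof

/-!
# A computable, strictly decreasing sequence of rationals converging to Klarner's constant

`t n` is the number of fixed `n`-ominoes (translation classes of connected `n`-cell subsets of the
square lattice) and `λ = lim t(n)^(1/n)`; see `Pool.Agent.Helper47.KlarnerDefs` for the definitions.

`num n` is the least `a` with `576 m³ t(m) ≤ (a/2^n)^m` for `n+1 ≤ m ≤ 5(n+1)+1`,
`best n / 2^n = min_{k ≤ n} num k / 2^k` and `beta n = (best n + 1)/2^n`. That `num n / 2^n` is an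
upper bound for `λ` follows by cutting a polyomino with `N` cells into two connected pieces, each
with at least `(N - 1)/5` cells.
-/

set_option autoImplicit false

namespace Pool.Agent.Results.MP_fc5d3b_co.ComputableUpperBounds

open Filter Topology
open Pool.Agent.Helper47.Klarner

/-- **Klarner's constant is the limit of a computable, strictly decreasing sequence of rationals.**
`lam = lim t(n)^(1/n)` exists and is positive; `t` and the numerators `best n + 1` of
`beta n = (best n + 1) / 2 ^ n` are primitive recursive functions of `n`; `beta` is strictly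
decreasing, lies above `lam` and converges to `lam`, with an error `O(log n / n)`. Moreover every
window `[n, 5 n + 1]` contains an `m` with `t m ≥ lam ^ m / (576 m³)`. -/
theorem result :
    ∃ lam : ℝ, 0 < lam ∧
      Tendsto (fun n : ℕ => (t n : ℝ) ^ (1 / (n : ℝ))) atTop (𝓝 lam) ∧
      Primrec t ∧
      Primrec (fun n => best n + 1) ∧ Primrec (fun n : ℕ => 2 ^ n) ∧
      (∀ n, beta n = ((best n + 1 : ℕ) : ℚ) / ((2 ^ n : ℕ) : ℚ)) ∧
      StrictAnti beta ∧
      (∀ n, lam < (beta n : ℝ)) ∧
      Tendsto (fun n => (beta n : ℝ)) atTop (𝓝 lam) ∧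
      (∀ᶠ n : ℕ in atTop, (beta n : ℝ) - lam ≤ (8 * lam + 2) * (Real.log n / n)) ∧
      (∀ n : ℕ, 1 ≤ n → ∃ m, n ≤ m ∧ m ≤ 5 * n + 1 ∧ lam ^ m ≤ 576 * (m : ℝ) ^ 3 * t m) := by
  obtain ⟨lam, hpos, hlim, hle⟩ := exists_lam
  refine ⟨lam, hpos, hlim, t_primrec, Primrec.succ.comp best_primrec,
    primrec_pow.comp (.const 2) .id, ?_, beta_strictAnti, lam_lt_beta hlim,
    beta_tendsto hpos hlim hle, ?_, exists_window hpos hlim⟩
  · intro n
    unfold beta
    push_cast
    rfl
  · filter_upwards [beta_rate hpos hle] with n hn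
    linarith

end Pool.Agent.Results.MP_fc5d3b_co.ComputableUpperBounds
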